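import Pool.Agent.OptRes.Problem
import Pool.Agent.OptRes.Final

/-!
# Weak limits of optimal resource distributions as the diffusivity vanishes

Full positive answer: every sequence of maximizers `m_k` of the total population for
diffusivities `μ_k → 0` converges weakly to the constant `m₀`.
-/

open MeasureTheory Set Filter Topology Pool.Agent.OptRes

/-- Let `0 < m₀ < κ`, let `μ_k > 0` tend to `0` and let `m_k` be a maximizer of the total
population `∫ θ_{m,μ_k}` over all `m` with `0 ≤ m ≤ κ` and `∫ m = m₀`.  Then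
`∫ m_k φ → m₀ ∫ φ` for every integrable `φ` on `(0,1)`. -/
theorem Pool.Agent.Results.MP_1c79f0_an.WeakLimit.result {κ m₀ : ℝ} (h0 : 0 < m₀) (h1 : m₀ < κ)
    (μ : ℕ → ℝ) (hμ : ∀ k, 0 < μ k) (hμ0 : Tendsto μ atTop (𝓝 0))
    (m : ℕ → ℝ → ℝ) (hm : ∀ k, IsMaximizer κ m₀ (μ k) (m k))
    (φ : ℝ → ℝ) (hφ : IntegrableOn φ (Ioo (0 : ℝ) 1)) :
    Tendsto (fun k => ∫ x in (0 : ℝ)..1, m k x * φ x) atTop
      (𝓝 (m₀ * ∫ x in (0 : ℝ)..1, φ x)) :=
  weak_limit h0 h1 μ hμ hμ0 m hm φ hφ
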